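import Pool.Agent.W398.SG.StmC

/-! Project SG (MP_9a3597_al), part SG-C-TRI: the group of triangular permutations and the
truncation homomorphisms. -/

namespace Pool.Agent.W389.SG.Tri

open Pool.Agent.W37.SG Pool.Agent.W398.SG.C

theorem agree {p : ℕ} {g : Equiv.Perm (ℕ → ZMod p)} (hg : IsTri p g) {x y : ℕ → ZMod p} {i : ℕ}
    (h : ∀ j < i, x j = y j) : ∀ j < i, g x j = g y j := by
  intro j hj
  have h1 := hg j x y (fun l hl => h l (hl.trans hj))
  rw [h j hj] at h1
  exact sub_left_injective h1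

theorem tri_mul {p : ℕ} {g h : Equiv.Perm (ℕ → ZMod p)} (hg : IsTri p g) (hh : IsTri p h) :
    IsTri p (g * h) := by
  intro i x y hxy
  have h1 := hh i x y hxy
  have h2 := hg i (h x) (h y) (agree hh hxy)
  simp only [Equiv.Perm.coe_mul, Function.comp_apply]
  calc g (h x) i - x i = (g (h x) i - h x i) + (h x i - x i) := by ring
    _ = (g (h y) i - h y i) + (h y i - y i) := by rw [h1, h2]
    _ = g (h y) i - y i := by ring

theorem tri_inv {p : ℕ} {g : Equiv.Perm (ℕ → ZMod p)} (hg : IsTri p g) : IsTri p g⁻¹ := by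
  intro i y y' hy
  have e1 : g (g⁻¹ y) = y := by simp
  have e2 : g (g⁻¹ y') = y' := by simp
  have key : ∀ j, j < i → (g⁻¹ y) j = (g⁻¹ y') j := by
    intro j
    induction j using Nat.strong_induction_on with
    | _ j ih =>
      intro hj
      have h1 := hg j (g⁻¹ y) (g⁻¹ y') (fun l hl => ih l hl (hl.trans hj))
      rw [e1, e2, hy j hj] at h1
      exact sub_right_injective h1
  have h2 := hg i (g⁻¹ y) (g⁻¹ y') key
  rw [e1, e2] at h2
  have h3 : -(y i - (g⁻¹ y) i) = -(y' i - (g⁻¹ y') i) := by rw [h2]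
  simpa [neg_sub] using h3

/-- truncation of a map -/
def trf {p : ℕ} (k : ℕ) (g : (ℕ → ZMod p) → (ℕ → ZMod p)) : (ℕ → ZMod p) → (ℕ → ZMod p) :=
  fun x i => if i < k then g x i else x i

theorem trf_lt {p : ℕ} {k : ℕ} (g : (ℕ → ZMod p) → (ℕ → ZMod p)) (x : ℕ → ZMod p) {i : ℕ}
    (hi : i < k) : trf k g x i = g x i := by simp [trf, hi]

theorem trf_ge {p : ℕ} {k : ℕ} (g : (ℕ → ZMod p) → (ℕ → ZMod p)) (x : ℕ → ZMod p) {i : ℕ}
    (hi : ¬ i < k) : trf k g x i = x i := by simp [trf, hi]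

theorem trf_comp {p : ℕ} (k : ℕ) {g h : Equiv.Perm (ℕ → ZMod p)} (hg : IsTri p g)
    (x : ℕ → ZMod p) : trf k g (trf k h x) = trf k (fun x => g (h x)) x := by
  funext i
  by_cases hi : i < k
  · rw [trf_lt _ _ hi, trf_lt _ _ hi]
    exact agree hg (fun j hj => trf_lt _ _ hj) i hi
  · rw [trf_ge _ _ hi, trf_ge _ _ hi, trf_ge _ _ hi]

theorem trf_id {p : ℕ} (k : ℕ) (x : ℕ → ZMod p) : trf k (fun x => x) x = x := by
  funext i
  by_cases hi : i < k
  · rw [trf_lt _ _ hi]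
  · rw [trf_ge _ _ hi]

/-- truncation of a triangular permutation -/
def tr {p : ℕ} (k : ℕ) (g : Equiv.Perm (ℕ → ZMod p)) (hg : IsTri p g) :
    Equiv.Perm (ℕ → ZMod p) where
  toFun := trf k g
  invFun := trf k (g⁻¹ : Equiv.Perm (ℕ → ZMod p))
  left_inv x := by
    rw [trf_comp k (tri_inv hg)]
    have h1 : (fun x => g⁻¹ (g x)) = fun x : ℕ → ZMod p => x := by
      funext x
      simp
    rw [h1]
    exact trf_id k x
  right_inv x := by
    rw [trf_comp k hg]
    have h1 : (fun x => g (g⁻¹ x)) = fun x : ℕ → ZMod p => x := by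
      funext x
      simp
    rw [h1]
    exact trf_id k x

theorem tr_apply {p : ℕ} (k : ℕ) (g : Equiv.Perm (ℕ → ZMod p)) (hg : IsTri p g)
    (x : ℕ → ZMod p) : tr k g hg x = trf k g x := rfl

theorem tr_tri {p : ℕ} (k : ℕ) (g : Equiv.Perm (ℕ → ZMod p)) (hg : IsTri p g) :
    IsTri p (tr k g hg) := by
  intro i x y hxy
  rw [tr_apply, tr_apply]
  by_cases hi : i < k
  · rw [trf_lt _ _ hi, trf_lt _ _ hi]
    exact hg i x y hxy
  · rw [trf_ge _ _ hi, trf_ge _ _ hi]
    simp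

/-- the group of triangular permutations -/
def Tr (p : ℕ) : Subgroup (Equiv.Perm (ℕ → ZMod p)) where
  carrier := {g | IsTri p g}
  mul_mem' hg hh := tri_mul hg hh
  one_mem' := by
    intro i x y _
    simp
  inv_mem' hg := tri_inv hg

theorem main : S_TRI := by
  intro p
  refine ⟨Tr p, fun g => Iff.rfl, fun k => ?_⟩
  refine ⟨MonoidHom.mk' (fun g => ⟨tr k g.1 g.2, tr_tri k g.1 g.2⟩) ?_, ?_⟩
  · intro g h
    apply Subtype.ext
    apply Equiv.ext
    intro x
    change trf k ((g.1 * h.1 : Equiv.Perm (ℕ → ZMod p))) x = trf k g.1 (trf k h.1 x)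
    rw [trf_comp k g.2]
    rfl
  · intro g x i
    change trf k g.1 x i = _
    rfl

end Pool.Agent.W389.SG.Tri
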